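import Pool.Agent.H835R2.Knot.Defs
import Pool.Agent.Y466.FT.Defs

/-!
# The closure of the braid `σ₀ σ₁ σ₂` is the unknot
-/

set_option autoImplicit false

namespace Pool.Agent.Helper52_KV

open Pool.Agent.H835R2.Knot Pool.Agent.Y466.FT Piece

/-- the closure of the braid word `w` on four strands (all directed downwards) as a sliced diagram -/
def closure4 (w : Braid) : Word :=
  [birth 0 true, birth 1 true, birth 2 true, birth 3 true] ++ draw w ++
    [death 3, death 2, death 1, death 0]

theorem st {D E : Word} (x l r y : Word) (hm : Move l r) (hD : D = x ++ l ++ y)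
    (hE : E = x ++ r ++ y) (h1 : Closed D) (h2 : Closed E) : Isotopic D E := by
  subst hD hE
  exact Relation.EqvGen.rel _ _ (Step.mk x l r y hm h1 h2)

theorem st' {D E : Word} (x l r y : Word) (hm : Move r l) (hD : D = x ++ l ++ y)
    (hE : E = x ++ r ++ y) (h1 : Closed D) (h2 : Closed E) : Isotopic D E :=
  Relation.EqvGen.symm _ _ (st x r l y hm hE hD h2 h1)

theorem tr {D E F : Word} (h : Isotopic D E) (h' : Isotopic E F) : Isotopic D F :=
  Relation.EqvGen.trans _ _ _ h h'

abbrev B (i : ℕ) : Piece := birth i true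
abbrev B' (i : ℕ) : Piece := birth i false

theorem c4 : Isotopic [B 0, B 1, B 2, B 3, pos 0, pos 1, pos 2, death 3, death 2, death 1, death 0]
    [B 0, B 1, B 2, pos 0, pos 1, death 2, death 1, death 0] := by
  refine tr (E := [B 0, B 1, B 2, B 3, pos 0, pos 1, neg 3, death 2, death 2, death 1, death 0])
    (st' [B 0, B 1, B 2, B 3, pos 0, pos 1] _ _ [death 2, death 1, death 0] (Move.slideDeath₂ 2)
      rfl rfl (by decide) (by decide)) ?_
  refine tr (E := [B 0, B 1, B 2, B 3, pos 0, neg 3, pos 1, death 2, death 2, death 1, death 0])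
    (st [B 0, B 1, B 2, B 3, pos 0] [pos 1, neg 3] [neg 3, pos 1] [death 2, death 2, death 1, death 0]
      (Move.exchange (pos 1) (neg 3) (by decide)) rfl rfl (by decide) (by decide)) ?_
  refine tr (E := [B 0, B 1, B 2, B 3, neg 3, pos 0, pos 1, death 2, death 2, death 1, death 0])
    (st [B 0, B 1, B 2, B 3] [pos 0, neg 3] [neg 3, pos 0] [pos 1, death 2, death 2, death 1, death 0]
      (Move.exchange (pos 0) (neg 3) (by decide)) rfl rfl (by decide) (by decide)) ?_
  refine tr (E := [B 0, B 1, B 2, B' 3, pos 0, pos 1, death 2, death 2, death 1, death 0])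
    (st [B 0, B 1, B 2] _ _ [pos 0, pos 1, death 2, death 2, death 1, death 0]
      (Move.firstBirthNeg 3 true) rfl rfl (by decide) (by decide)) ?_
  refine tr (E := [B 0, B 1, B 2, pos 0, B' 3, pos 1, death 2, death 2, death 1, death 0])
    (st' [B 0, B 1, B 2] [B' 3, pos 0] [pos 0, B' 3] [pos 1, death 2, death 2, death 1, death 0]
      (Move.exchange (pos 0) (B' 3) (by decide)) rfl rfl (by decide) (by decide)) ?_
  refine tr (E := [B 0, B 1, B 2, pos 0, pos 1, B' 3, death 2, death 2, death 1, death 0])
    (st' [B 0, B 1, B 2, pos 0] [B' 3, pos 1] [pos 1, B' 3] [death 2, death 2, death 1, death 0]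
      (Move.exchange (pos 1) (B' 3) (by decide)) rfl rfl (by decide) (by decide)) ?_
  exact st [B 0, B 1, B 2, pos 0, pos 1] [B' 3, death 2] [] [death 2, death 1, death 0]
    (Move.zigzag₂ 2 false) rfl rfl (by decide) (by decide)

theorem c3 : Isotopic [B 0, B 1, B 2, pos 0, pos 1, death 2, death 1, death 0]
    [B 0, B 1, pos 0, death 1, death 0] := by
  refine tr (E := [B 0, B 1, B 2, pos 0, neg 2, death 1, death 1, death 0])
    (st' [B 0, B 1, B 2, pos 0] _ _ [death 1, death 0] (Move.slideDeath₂ 1)
      rfl rfl (by decide) (by decide)) ?_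
  refine tr (E := [B 0, B 1, B 2, neg 2, pos 0, death 1, death 1, death 0])
    (st [B 0, B 1, B 2] [pos 0, neg 2] [neg 2, pos 0] [death 1, death 1, death 0]
      (Move.exchange (pos 0) (neg 2) (by decide)) rfl rfl (by decide) (by decide)) ?_
  refine tr (E := [B 0, B 1, B' 2, pos 0, death 1, death 1, death 0])
    (st [B 0, B 1] _ _ [pos 0, death 1, death 1, death 0]
      (Move.firstBirthNeg 2 true) rfl rfl (by decide) (by decide)) ?_
  refine tr (E := [B 0, B 1, pos 0, B' 2, death 1, death 1, death 0])
    (st' [B 0, B 1] [B' 2, pos 0] [pos 0, B' 2] [death 1, death 1, death 0]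
      (Move.exchange (pos 0) (B' 2) (by decide)) rfl rfl (by decide) (by decide)) ?_
  exact st [B 0, B 1, pos 0] [B' 2, death 1] [] [death 1, death 0]
    (Move.zigzag₂ 1 false) rfl rfl (by decide) (by decide)

theorem c2 : Isotopic [B 0, B 1, pos 0, death 1, death 0] [B 0, death 0] := by
  refine tr (E := [B 0, B 1, neg 1, death 0, death 0])
    (st' [B 0, B 1] _ _ [death 0] (Move.slideDeath₂ 0) rfl rfl (by decide) (by decide)) ?_
  refine tr (E := [B 0, B' 1, death 0, death 0])
    (st [B 0] _ _ [death 0, death 0] (Move.firstBirthNeg 1 true) rfl rfl (by decide) (by decide)) ?_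
  exact st [B 0] [B' 1, death 0] [] [death 0] (Move.zigzag₂ 0 false) rfl rfl (by decide) (by decide)

theorem closure4_b0 : Isotopic (closure4 [(true, 0), (true, 1), (true, 2)]) circle :=
  tr c4 (tr c3 c2)

theorem isKnot_b0 : IsKnot (closure4 [(true, 0), (true, 1), (true, 2)]) := by decide

end Pool.Agent.Helper52_KV
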