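import Pool.Agent.H835R2.Knot.Defs
import Pool.Agent.W639.RB.Defs

/-!
# Braid words on four strands in sliced diagrams
-/

set_option autoImplicit false

namespace Pool.Agent.Helper52_KV

open Pool.Agent.H835R2.Knot Pool.Agent.W639.RB

/-- the braid word `w` drawn on the strands `p, p + 1, p + 2, p + 3` of a sliced diagram: the letter
`σ_j` is drawn as the crossing `pos (p + j)`, the letter `σ_j⁻¹` as the opposite crossing
`neg (p + j)` -/
def sliced (p : ℕ) (w : List (Letter 4)) : Word :=
  w.map fun l => if l.1 then Piece.pos (l.2 + p) else Piece.neg (l.2 + p)

/-- the closure of the braid word `w` on four strands, all of them directed downwards, as a sliced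
diagram -/
def slicedClosure (w : List (Letter 4)) : Word :=
  [.birth 0 true, .birth 1 true, .birth 2 true, .birth 3 true] ++ sliced 0 w ++
    [.death 3, .death 2, .death 1, .death 0]

end Pool.Agent.Helper52_KV
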