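import Pool.Agent.Y466.FT.Abs

/-!
# Iterated commutators and functions of finite degree on a monoid
-/

set_option autoImplicit false

namespace Pool.Agent.Helper52_KV

open Pool.Agent.Y466.FT

section
variable {M : Type*} [Monoid M] {A : Type*} [AddCommGroup A] {E R : Set (M × M)}

/-- the two elements are related by all congruences which contain `R` -/
def Eqv (R : Set (M × M)) (w w' : M) : Prop := ∀ c : Con M, (∀ r ∈ R, c r.1 r.2) → c w w'

/-- the congruence of the pairs which `φ` does not distinguish -/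
def kphi (φ : M → A) : Con M where
  r p p' := ∀ a b : M, φ (a * p * b) = φ (a * p' * b)
  iseqv := ⟨fun _ _ _ => rfl, fun h a b => (h a b).symm, fun h h' a b => (h a b).trans (h' a b)⟩
  mul' := by
    intro p p' r r' h h' a b
    have h1 := h a (r * b)
    have h2 := h' (a * p') b
    simp only [mul_assoc] at h1 h2 ⊢
    exact h1.trans h2

omit [AddCommGroup A] in
theorem Eqv.iv {w w' : M} (h : Eqv R w w') {φ : M → A} (hφ : Iv R φ) (a b : M) :
    φ (a * w * b) = φ (a * w' * b) :=
  h (kphi φ) (fun r hr => hφ r hr) a b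

variable (A) in
/-- the difference operator of `w` lowers the degree by `j` -/
def Dp (R E : Set (M × M)) (j : ℕ) (w : M) : Prop :=
  ∀ (n : ℕ) (φ : M → A), Dg E (n + j) φ → Iv R φ → Dg E n (Tr w φ)

theorem Dp.of_pu {w : M} (h : Pu R E w) : Dp A R E 1 w := fun _ _ h1 h2 => h1.tr h2 h

theorem Dp.comm {j : ℕ} {x x' u u' : M} (hx : Dp A R E 1 x) (hu : Dp A R E j u)
    (hxx : Eqv R (x * x') 1) (huu : Eqv R (u * u') 1) : Dp A R E (j + 1) (x * u * x' * u') := by
  intro n φ h1 h2
  have h3 : Dg E (n + j) (Tr x φ) := hx (n + j) φ h1 h2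
  have h4 : Dg E n (Tr u (Tr x φ)) := hu n _ h3 (h2.tr x)
  have h5 : Dg E (n + 1) (Tr u φ) := hu (n + 1) φ (by
    rw [show n + 1 + j = n + (j + 1) by ring]; exact h1) h2
  have h6 : Dg E n (Tr x (Tr u φ)) := hx n _ h5 (h2.tr u)
  have h7 := (h4.sub h6).trans (x' * u')
  refine h7.congr fun p => ?_
  have e1 : φ (u * (x * (x' * u') * p)) = φ p := by
    have e2 := hxx.iv h2 u (u' * p)
    have e3 := huu.iv h2 1 p
    simp only [mul_assoc, one_mul, mul_one] at e2 e3 ⊢
    rw [e2, e3]
  unfold Tr
  have e4 : u * (x * (x' * u') * p) = u * (x * (x' * u' * p)) := by simp only [mul_assoc]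
  rw [e4] at e1
  rw [e1]
  have e5 : x * u * x' * u' * p = x * (u * (x' * u' * p)) := by simp only [mul_assoc]
  rw [e5]
  abel

/-- the degree bound can be increased -/
theorem Dg.succ {n : ℕ} {φ : M → A} (h : Dg E n φ) : Dg E (n + 1) φ := by
  induction n generalizing φ with
  | zero =>
    intro e _ a p
    show φ _ - φ _ = 0
    rw [h, h, sub_zero]
  | succ n ih =>
    intro e he a
    exact ih (h e he a)

theorem Dg.add_nat {n : ℕ} {φ : M → A} (h : Dg E n φ) (m : ℕ) : Dg E (n + m) φ := by
  induction m with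
  | zero => exact h
  | succ m ih => exact Dg.succ ih

/-- an element whose difference operator lowers the degree by at least `n` is not seen by functions of
degree less than `n` -/
theorem Dp.eq {n j : ℕ} {w : M} (h : Dp A R E j w) (hj : n ≤ j) {φ : M → A} (h1 : Dg E n φ)
    (h2 : Iv R φ) (p : M) : φ (w * p) = φ p := by
  obtain ⟨m, rfl⟩ := Nat.exists_eq_add_of_le hj
  have h3 := h 0 φ (by rw [zero_add]; exact Dg.add_nat h1 m) h2
  exact sub_eq_zero.1 (h3 p)

end

end Pool.Agent.Helper52_KV
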