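import Pool.Agent.Y466.FT.Fam
import Pool.Agent.Helper52_KV.Dp
import Pool.Agent.Helper52_KV.Circ

/-!
# Vassiliev invariants of order at most `n` do not see iterated commutators of pure braids
-/

set_option autoImplicit false

namespace Pool.Agent.Helper52_KV

open Pool.Agent.H835R2 Pool.Agent.H835R2.Knot Pool.Agent.Y466.FT Pool.Agent.H835R2.Flat

/-- the word at the only place -/
def sg (w : Braid) : Fin 1 → FreeMonoid (Bool × ℕ) := Pi.mulSingle 0 (FreeMonoid.ofList w)

theorem sg_append (w w' : Braid) : sg (w ++ w') = sg w * sg w' := by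
  unfold sg
  rw [FreeMonoid.ofList_append, Pi.mulSingle_mul]

theorem plug_sg (x y : Word) (w : Braid) :
    plug x (fun _ : Fin 1 => y) piece (sg w) = x ++ draw w ++ y := by
  unfold plug sg
  simp [draw]

theorem plug_one (x y : Word) : plug x (fun _ : Fin 1 => y) piece 1 = x ++ y := by
  unfold plug
  simp

theorem eqv_inv {m : Fin 1 → ℕ} {w : Braid} (hw : ∀ l ∈ w, l.2 + 1 < m 0) :
    Eqv (RS m) (sg w * sg (inv w)) 1 := fun c hR => by
  have h := cl_inv hR hw
  rw [← map_one (cl c 0), cl_eq, Pi.mulSingle_one] at h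
  rw [← sg_append]
  exact h

/-- iterated commutators -/
def itc (X V : Braid) : ℕ → Braid
  | 0 => V
  | (k + 1) => X ++ itc X V k ++ inv X ++ inv (itc X V k)

theorem inv_lt {m : ℕ} {w : Braid} (hw : ∀ l ∈ w, l.2 + 1 < m) : ∀ l ∈ inv w, l.2 + 1 < m := by
  intro l hl
  obtain ⟨l', h', rfl⟩ := List.mem_map.1 (List.mem_reverse.1 hl)
  exact hw l' h'

theorem itc_lt {m : ℕ} {X V : Braid} (hX : ∀ l ∈ X, l.2 + 1 < m) (hV : ∀ l ∈ V, l.2 + 1 < m)
    (k : ℕ) : ∀ l ∈ itc X V k, l.2 + 1 < m := by
  induction k with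
  | zero => exact hV
  | succ k ih =>
    intro l hl
    unfold itc at hl
    simp only [List.mem_append] at hl
    rcases hl with ((h | h) | h) | h
    · exact hX l h
    · exact ih l h
    · exact inv_lt hX l h
    · exact inv_lt ih l h

theorem dp_itc {A : Type} [AddCommGroup A] {m : Fin 1 → ℕ} {X V : Braid}
    (hX : ∀ l ∈ X, l.2 + 1 < m 0) (hV : ∀ l ∈ V, l.2 + 1 < m 0) (pX : IsPure X) (pV : IsPure V)
    (k : ℕ) : Dp A (RS m) (ES m) (k + 1) (sg (itc X V k)) := by
  induction k with
  | zero => exact Dp.of_pu (pu hV pV)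
  | succ k ih =>
    have h := Dp.comm (Dp.of_pu (pu hX pX)) ih (eqv_inv hX) (eqv_inv (itc_lt hX hV k))
    unfold itc
    rw [sg_append, sg_append, sg_append]
    exact h

theorem ins {n j : ℕ} {x y : Word} {X V : Braid} (hj : n ≤ j)
    (hX : ∀ l ∈ X, l.2 + 1 < (Knot.run x Front.empty).n)
    (hV : ∀ l ∈ V, l.2 + 1 < (Knot.run x Front.empty).n) (pX : IsPure X) (pV : IsPure V)
    (h : IsKnot (x ++ y)) :
    IsKnot (x ++ draw (itc X V j) ++ y) ∧ ∀ (A : Type) [AddCommGroup A] (v : Word → A),
      IsInvariant v → DegreeLE n v → v (x ++ draw (itc X V j) ++ y) = v (x ++ y) := by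
  have hm : Y466.FT.wd x (fun _ : Fin 1 => y) 0 = (Knot.run x Front.empty).n := by
    rw [run_n]
    unfold Y466.FT.wd
    simp [Front.empty]
  have key : ∀ {A : Type} [AddCommGroup A] (v : Word → A), IsInvariant v → DegreeLE n v →
      ext v (x ++ draw (itc X V j) ++ y) = ext v (x ++ y) := by
    intro A _ v hv hn
    have h1 := dg_phi x (fun _ : Fin 1 => y) hn
    have h2 := iv_phi x (fun _ : Fin 1 => y) hv
    have h3 : Dp A (RS (Y466.FT.wd x (fun _ : Fin 1 => y))) (ES (Y466.FT.wd x (fun _ : Fin 1 => y))) (j + 1)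
        (sg (itc X V j)) :=
      dp_itc (by rw [hm]; exact hX) (by rw [hm]; exact hV) pX pV j
    have h4 := h3.eq (by omega) h1 h2 1
    rw [mul_one] at h4
    unfold phi at h4
    rwa [plug_sg, plug_one] at h4
  have h1 : IsKnot (x ++ draw (itc X V j) ++ y) := by
    have h0 : DegreeLE n (fun _ : Word => (1 : ℤ)) := by
      have hd : DegreeLE 0 (fun _ : Word => (1 : ℤ)) := by
        intro D _ S _ hS
        obtain ⟨x, rfl⟩ := Finset.card_eq_one.1 (by simpa using hS)
        rw [show ({x} : Finset ℕ).powerset = {∅, {x}} from rfl]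
        rw [Finset.sum_pair (by simp)]
        simp
      clear hj key
      induction n with
      | zero => exact hd
      | succ n ih => exact DegreeLE.succ ih
    have h2 := key (fun _ : Word => (1 : ℤ)) (fun _ _ _ _ => rfl) h0
    by_contra hq
    unfold ext at h2
    rw [if_neg hq, if_pos h] at h2
    exact absurd h2 (by norm_num)
  refine ⟨h1, fun A _ v hv hn => ?_⟩
  have h2 := key v hv hn
  unfold ext at h2
  rwa [if_pos h1, if_pos h] at h2

/-! ### shifts -/

/-- the braid word, moved to the strands `p, p + 1, …` -/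
def shift (p : ℕ) (w : Braid) : Braid := w.map fun l => (l.1, l.2 + p)

theorem shift_append (p : ℕ) (w w' : Braid) : shift p (w ++ w') = shift p w ++ shift p w' := by
  simp [shift]

theorem shift_inv (p : ℕ) (w : Braid) : shift p (inv w) = inv (shift p w) := by
  simp [shift, inv, Function.comp_def]

theorem shift_itc (p : ℕ) (X V : Braid) (k : ℕ) :
    shift p (itc X V k) = itc (shift p X) (shift p V) k := by
  induction k with
  | zero => rfl
  | succ k ih =>
    unfold itc
    rw [shift_append, shift_append, shift_append, shift_inv, shift_inv, ih]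

theorem shift_zero (w : Braid) : shift 0 w = w := by simp [shift]

theorem shift_lt {p m : ℕ} {w : Braid} (hw : ∀ l ∈ w, l.2 + 1 < m) :
    ∀ l ∈ shift p w, l.2 + 1 < p + m := by
  intro l hl
  obtain ⟨l', h', rfl⟩ := List.mem_map.1 hl
  have := hw l' h'
  show l'.2 + p + 1 < p + m
  omega

theorem perm_cons (l : Bool × ℕ) (w : Braid) : perm (l :: w) = Equiv.swap l.2 (l.2 + 1) * perm w := by
  simp [perm]

theorem perm_shift (p : ℕ) (w : Braid) :
    (∀ n, perm (shift p w) (n + p) = perm w n + p) ∧ ∀ n < p, perm (shift p w) n = n := by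
  induction w with
  | nil => exact ⟨fun _ => rfl, fun _ _ => rfl⟩
  | cons l w ih =>
    have e : shift p (l :: w) = (l.1, l.2 + p) :: shift p w := rfl
    refine ⟨fun n => ?_, fun n hn => ?_⟩
    · rw [e, perm_cons, perm_cons, Equiv.Perm.mul_apply, Equiv.Perm.mul_apply, ih.1 n]
      simp only [Equiv.swap_apply_def]
      split_ifs <;> omega
    · rw [e, perm_cons, Equiv.Perm.mul_apply, ih.2 n hn]
      simp only [Equiv.swap_apply_def]
      split_ifs <;> omega

theorem IsPure.shift {w : Braid} (h : IsPure w) (p : ℕ) : IsPure (shift p w) := by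
  apply Equiv.ext
  intro n
  by_cases hn : n < p
  · exact (perm_shift p w).2 n hn
  · obtain ⟨d, rfl⟩ := Nat.exists_eq_add_of_le (not_lt.1 hn)
    rw [add_comm, (perm_shift p w).1 d]
    unfold Pool.Agent.Y466.FT.IsPure at h
    rw [h]
    rfl

end Pool.Agent.Helper52_KV
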