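import Pool.Agent.Helper52_CV.Fin

/-!
# Images in virtually solvable groups
-/

set_option autoImplicit false

namespace Pool.Agent.Helper52_KV

open Finset LaurentPolynomial Pool.Agent.H891R2.Jones Pool.Agent.W639.RB
  Pool.Agent.Y463.SK Pool.Agent.Y463.MP Pool.Agent.Helper52_CV

section
variable {G : Type} [Group G] {m : ℕ} (f : Letter m → G)

theorem prod_app (v w : List (Letter m)) :
    ((v ++ w).map f).prod = (v.map f).prod * (w.map f).prod := by simp

theorem prod_invW (hf : ∀ j, f (false, j) = (f (true, j))⁻¹) (w : List (Letter m)) :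
    ((invW w).map f).prod = ((w.map f).prod)⁻¹ := by
  induction w with
  | nil => simp [invW]
  | cons x w ih =>
    have e1 : (List.map f (x :: w)).prod = f x * (List.map f w).prod := by simp
    have e2 : (List.map f [(!x.1, x.2)]).prod = f (!x.1, x.2) := by simp
    rw [invW_cons, List.map_append, List.prod_append, ih, e1, e2, mul_inv_rev]
    congr 1
    obtain ⟨b, j⟩ := x
    cases b
    · simp [hf]
    · simp [hf]

theorem prod_flatten (w : List (Letter m)) (n : ℕ) :
    ((List.replicate n w).flatten.map f).prod = (w.map f).prod ^ n := by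
  induction n with
  | zero => simp
  | succ n ih =>
    rw [List.replicate_succ, List.flatten_cons, List.map_append, List.prod_append, ih, pow_succ']

end

/-- the image of `v` under every homomorphism to a group with a normal subgroup `H` whose index
divides `s` lies in the `d`-th derived subgroup of `H` -/
def Dv (s d : ℕ) (v : List (Letter 4)) : Prop :=
  ∀ (G : Type) [Group G] (H : Subgroup G) [H.Normal], H.index ∣ s →
    ∀ f : Letter 4 → G, (∀ j, f (false, j) = (f (true, j))⁻¹) →
      (v.map f).prod ∈ (derivedSeries H d).map H.subtype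

theorem Dv.conj {s d : ℕ} {v : List (Letter 4)} (h : Dv s d v) (w : List (Letter 4)) :
    Dv s d (w ++ v ++ invW w) := by
  intro G _ H _ hs f hf
  rw [prod_app, prod_app, prod_invW f hf]
  exact Subgroup.Normal.conj_mem inferInstance _ (h G H hs f hf) _

theorem Dv.inv {s d : ℕ} {v : List (Letter 4)} (h : Dv s d v) : Dv s d (invW v) := by
  intro G _ H _ hs f hf
  rw [prod_invW f hf]
  exact inv_mem (h G H hs f hf)

theorem Dv.app {s d : ℕ} {v w : List (Letter 4)} (h : Dv s d v) (h' : Dv s d w) :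
    Dv s d (v ++ w) := by
  intro G _ H _ hs f hf
  rw [prod_app]
  exact mul_mem (h G H hs f hf) (h' G H hs f hf)

/-- commutators of arbitrary words with `v` -/
theorem Dv.comm_right {s d : ℕ} {v : List (Letter 4)} (h : Dv s d v) (u : List (Letter 4)) :
    Dv s d (u ++ v ++ invW u ++ invW v) := (h.conj u).app h.inv

theorem Dv.comm_left {s d : ℕ} {u : List (Letter 4)} (h : Dv s d u) (v : List (Letter 4)) :
    Dv s d (u ++ v ++ invW u ++ invW v) := by
  have h1 := h.app (h.inv.conj v)
  have e : u ++ (v ++ invW u ++ invW v) = u ++ v ++ invW u ++ invW v := by simp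
  rwa [e] at h1

theorem Dv.comm {s d : ℕ} {u v : List (Letter 4)} (h : Dv s d u) (h' : Dv s d v) :
    Dv s (d + 1) (u ++ v ++ invW u ++ invW v) := by
  intro G _ H _ hs f hf
  obtain ⟨x, hx, hx'⟩ := h G H hs f hf
  obtain ⟨y, hy, hy'⟩ := h' G H hs f hf
  refine ⟨x * y * x⁻¹ * y⁻¹, Subgroup.commutator_mem_commutator hx hy, ?_⟩
  rw [prod_app, prod_app, prod_app, prod_invW f hf, prod_invW f hf, ← hx', ← hy', ← map_inv,
    ← map_inv, ← map_mul, ← map_mul, ← map_mul]

theorem dv_pow {s n : ℕ} (h : s ∣ n) (w : List (Letter 4)) :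
    Dv s 0 (List.replicate n w).flatten := by
  intro G _ H _ hs f _
  rw [prod_flatten]
  obtain ⟨c, rfl⟩ := hs.trans h
  rw [pow_mul]
  refine ⟨⟨_, H.pow_mem (H.pow_index_mem _) c⟩, ?_, rfl⟩
  exact Subgroup.mem_top _

theorem dv_Z (s : ℕ) : Dv s 0 (wZ s) := by
  have e : wZ s = (List.replicate (6 * s) [((false, 2) : Letter 4)]).flatten := by
    unfold wZ
    simp
  rw [e]
  exact dv_pow (Dvd.intro_left _ rfl) _

/-- the step of the derived series -/
theorem exist_dv {s : ℕ} (hs : 1 ≤ s) {c : ℤ[T;T⁻¹]} {v : List (Letter 4)} (h1 : Wk c v)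
    (h2 : Good v) (d : ℕ) : ∃ c' v', Wk (c * c') v' ∧ Good v' ∧ Dv s d v' := by
  induction d with
  | zero =>
    obtain ⟨e, h3⟩ := good_comm (wZ s) v (good_Z s hs) h2
    refine ⟨yy s, _, ?_, h3, (dv_Z s).comm_left _⟩
    have h4 := (Wk.comm (wk_two (m := 4) (s := s) false 2) (h1.conj (wC e))).wk
    rw [mul_comm c]
    exact h4
  | succ d ih =>
    obtain ⟨c', v', h3, h4, h5⟩ := ih
    obtain ⟨e, h6⟩ := good_comm v' v' h4 h4
    refine ⟨c' * (c * c'), _, ?_, h6, h5.comm (h5.conj (wC e))⟩
    have h7 := (Wk.comm h3 (h3.conj (wC e))).wk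
    rw [← mul_assoc]
    exact h7

theorem dv_best {s t : ℕ} {d : ℤ[T;T⁻¹]} {v : List (Letter 4)} (h1 : Wk d v) (h2 : Good v)
    (h3 : Dv s t v) : ∃ v, Wk d v ∧ Best v ∧ Dv s t v := by
  obtain ⟨κ, p, q, r, u, hκ, hr, hdet, hg⟩ := h2
  have key : ∀ e : ℕ, p + e * r + r - 1 ≠ 0 → ∃ v, Wk d v ∧ Best v ∧ Dv s t v := by
    intro e he
    refine ⟨wC e ++ v ++ invW (wC e), h1.conj (wC e), ⟨κ, p + e * r,
      q + e * (u - p) - e ^ 2 * r, r, u - e * r, hκ, he, ?_, rd_conj v e hκ hg⟩, h3.conj _⟩
    linear_combination hdet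
  by_cases h0 : p + (0 : ℕ) * r + r - 1 ≠ 0
  · exact key 0 h0
  · refine key 1 ?_
    push Not at h0
    intro h4
    apply hr
    push_cast at h0 h4
    linear_combination h4 - h0

theorem dv_wU {s d : ℕ} {v : List (Letter 4)} (h : Dv s d v) (k : ℕ) : Dv s d (wU s v k) := by
  induction k with
  | zero => exact h
  | succ k ih => exact ih.comm_right (wX s)

end Pool.Agent.Helper52_KV
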