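import Pool.Agent.Helper52_CV.Ring
import Pool.Agent.Helper52_KV.Ins
import Pool.Agent.Helper52_KV.Defs
import Pool.Agent.Helper52_KV.Solv

/-!
# The family
-/

set_option autoImplicit false

namespace Pool.Agent.Helper52_KV

open Finset LaurentPolynomial Pool.Agent.H891R2.Jones Pool.Agent.W639.RB
  Pool.Agent.Y463.SK Pool.Agent.Y463.MP Pool.Agent.Helper52_CV Pool.Agent.H835R2.Knot

/-! ### the Jones polynomial -/

theorem mainv (N k d : ℕ) (hN : 1 ≤ N) (W : List (List (Letter 3)))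
    (hW : ∀ w ∈ W, expSum w = 0 ∧ 3 ≤ |((w.map slz).prod).trace|) :
    ∃ v : List (Letter 4), permL (toN v) = 1 ∧ Dv N d v ∧
    (∀ i, IsPure (wU N v (2 * (i + k) + 2))) ∧
    (∀ i (O : Outer 4) (a b : List (Letter 4)),
      Md N W ^ k ∣ (dia O (a ++ wU N v (2 * (i + k) + 2) ++ b)).fPoly - (dia O (a ++ b)).fPoly) ∧
    (∀ i, (dia (braidClosure 4) (b0 ++ wU N v (2 * (i + k) + 2))).IsClosed ∧
      (∀ x y, (permW (b0 ++ wU N v (2 * (i + k) + 2))).SameCycle x y) ∧
      Md N W ^ k ∣ (dia (braidClosure 4) (b0 ++ wU N v (2 * (i + k) + 2))).fPoly - 1) ∧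
    Function.Injective
      (fun i => (dia (braidClosure 4) (b0 ++ wU N v (2 * (i + k) + 2))).fPoly) := by
  set L : List (ℤ[T;T⁻¹] × List (Letter 4)) :=
    (yy N, wZ N) :: W.map (fun w => (Sg (burauTrace w) (6 * N), wP N w)) with hLdef
  have hL : ∀ x ∈ L, Wk x.1 x.2 ∧ Good x.2 := by
    intro x hx
    rw [hLdef, List.mem_cons] at hx
    rcases hx with rfl | hx
    · exact ⟨wk_two false 2, good_Z N hN⟩
    · obtain ⟨w, hw, rfl⟩ := List.mem_map.1 hx
      exact ⟨wk_P N w (hW w hw).1, good_P N hN w (hW w hw).2⟩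
  have hprod : (L.map Prod.fst).prod = yy N * (W.map fun w => Sg (burauTrace w) (6 * N)).prod := by
    rw [hLdef, List.map_cons, List.prod_cons, List.map_map]
    rfl
  obtain ⟨v0, hv1, hv2⟩ := exist_pow L hL (yy N) (wZ N) (wk_two false 2) (good_Z N hN) k
  rw [hprod] at hv1
  obtain ⟨c', v1, hw1, hw2, hw3⟩ := exist_dv hN hv1 hv2 d
  obtain ⟨v, hd, hv, hdv⟩ := dv_best hw1 hw2 hw3
  have hdvd : ∀ j : ℕ, k ≤ j → Md N W ^ k ∣
      xx N ^ j * ((yy N * (W.map fun w => Sg (burauTrace w) (6 * N)).prod) ^ k * yy N * c') := by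
    intro j hj
    obtain ⟨j', rfl⟩ := Nat.exists_eq_add_of_le hj
    have e : xx N ^ (k + j') *
        ((yy N * (W.map fun w => Sg (burauTrace w) (6 * N)).prod) ^ k * yy N * c') =
        ((yy N * xx N) * (W.map fun w => Sg (burauTrace w) (6 * N)).prod) ^ k *
          (xx N ^ j' * yy N * c') := by
      rw [mul_pow, mul_pow, mul_pow, pow_add]
      ring
    rw [e]
    refine Dvd.dvd.mul_right (pow_dvd_pow_of_dvd ?_ k) _
    exact mul_dvd_mul ((dvd_one_sub N N ⟨6, by ring⟩).trans (dvd_yx N)) (prod_dvd N W)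
  have hst : ∀ i : ℕ, St (xx N ^ (2 * (i + k) + 2) *
      ((yy N * (W.map fun w => Sg (burauTrace w) (6 * N)).prod) ^ k * yy N * c'))
      (wU N v (2 * (i + k) + 2)) := fun i => st_wU (s := N) hd (2 * (i + k) + 1)
  have hmove : ∀ (i : ℕ) (O : Outer 4) (a b : List (Letter 4)), Md N W ^ k ∣
        (dia O (a ++ wU N v (2 * (i + k) + 2) ++ b)).fPoly - (dia O (a ++ b)).fPoly := by
    intro i O a b
    obtain ⟨G, hG⟩ := fPoly_move (by norm_num) (hst i) O a b
    rw [hG, add_sub_cancel_left]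
    exact Dvd.dvd.mul_right (hdvd _ (by omega)) _
  refine ⟨v, hd.perm, hdv,
    fun i => permW_one _ (hst i).perm, hmove,
    fun i => ⟨closed_all _, knot_b0 _ (hst i).perm, ?_⟩, fam_inj hN hd hv k⟩
  have h := hmove i (braidClosure 4) b0 []
  rwa [List.append_nil, List.append_nil, fPoly_b0] at h

/-! ### sliced diagrams -/

theorem toN_wU (s : ℕ) (v : List (Letter 4)) (k : ℕ) :
    toN (wU s v k) = itc (toN (wX s)) (toN v) k := by
  induction k with
  | zero => rfl
  | succ k ih =>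
    have e : wU s v (k + 1) = wX s ++ wU s v k ++ invW (wX s) ++ invW (wU s v k) := rfl
    rw [e, toN_append, toN_append, toN_append, toN_inv, toN_inv, ih]
    rfl

theorem sliced_eq (p : ℕ) (w : List (Letter 4)) :
    sliced p w = Pool.Agent.Y466.FT.draw (shift p (toN w)) := by
  unfold sliced Pool.Agent.Y466.FT.draw shift toN
  rw [List.map_map, List.map_map]
  rfl

theorem sliced_append (p : ℕ) (v w : List (Letter 4)) :
    sliced p (v ++ w) = sliced p v ++ sliced p w := by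
  simp [sliced]

theorem ins_wU {n s j p : ℕ} {v : List (Letter 4)} (hv : permL (toN v) = 1) (hj : n ≤ j)
    {x y : Word} (h : IsKnot (x ++ y)) (hp : p + 4 ≤ (run x Front.empty).n) :
    IsKnot (x ++ sliced p (wU s v j) ++ y) ∧ ∀ (A : Type) [AddCommGroup A] (z : Word → A),
      IsInvariant z → DegreeLE n z → z (x ++ sliced p (wU s v j) ++ y) = z (x ++ y) := by
  rw [sliced_eq, toN_wU, shift_itc]
  have hX : permL (toN (wX s)) = 1 := (wk_three (m := 4) (s := s) 0 1 rfl).perm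
  refine ins hj ?_ ?_ (IsPure.shift hX p) (IsPure.shift hv p) h
  · intro l hl
    exact lt_of_lt_of_le (shift_lt (toN_lt _) l hl) hp
  · intro l hl
    exact lt_of_lt_of_le (shift_lt (toN_lt _) l hl) hp

/-! ### the main theorem -/

theorem main3 (n N k : ℕ) (hN : 1 ≤ N) (W : List (List (Letter 3)))
    (hW : ∀ w ∈ W, expSum w = 0 ∧ 3 ≤ |((w.map slz).prod).trace|) :
    ∃ u : ℕ → List (Letter 4),
    (∀ i, IsPure (u i)) ∧
    (∀ i (p : ℕ) (x y : Word), IsKnot (x ++ y) → p + 4 ≤ (run x Front.empty).n →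
      IsKnot (x ++ sliced p (u i) ++ y) ∧ ∀ (A : Type) [AddCommGroup A] (z : Word → A),
        IsInvariant z → DegreeLE n z → z (x ++ sliced p (u i) ++ y) = z (x ++ y)) ∧
    (∀ i (G : Type) [Group G] (H : Subgroup G) [H.Normal], H.index ≠ 0 → H.index ≤ N →
      derivedSeries H n = ⊥ → ∀ f : Letter 4 → G, (∀ j, f (false, j) = (f (true, j))⁻¹) →
        ((u i).map f).prod = 1) ∧
    (∀ i (O : Outer 4) (v w : List (Letter 4)),
      Md N W ^ k ∣ (dia O (v ++ u i ++ w)).fPoly - (dia O (v ++ w)).fPoly ∧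
      ∀ (R : Type) [CommRing R] [Finite R] (φ : ℤ[T;T⁻¹] →+* R), Nat.card R ≤ N →
        φ (dia O (v ++ u i ++ w)).fPoly = φ (dia O (v ++ w)).fPoly) ∧
    (∀ i, IsKnot (slicedClosure (b0 ++ u i)) ∧ ∀ (A : Type) [AddCommGroup A] (z : Word → A),
      IsInvariant z → DegreeLE n z → z (slicedClosure (b0 ++ u i)) = z circle) ∧
    (∀ i, (dia (braidClosure 4) (b0 ++ u i)).IsClosed ∧ (∀ x y, (permW (b0 ++ u i)).SameCycle x y) ∧
      Md N W ^ k ∣ (dia (braidClosure 4) (b0 ++ u i)).fPoly - 1 ∧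
      ∀ (R : Type) [CommRing R] [Finite R] (φ : ℤ[T;T⁻¹] →+* R), Nat.card R ≤ N →
        φ (dia (braidClosure 4) (b0 ++ u i)).fPoly = 1) ∧
    Function.Injective (fun i => (dia (braidClosure 4) (b0 ++ u i)).fPoly) := by
  obtain ⟨v, h0, hdv, h1, h2, h3, h4⟩ := mainv (N * N.factorial) (k + 1 + n) n
    (Nat.mul_pos hN (Nat.factorial_pos N)) W hW
  have hd : Md N W ^ k ∣ Md (N * N.factorial) W ^ (k + 1 + n) :=
    (pow_dvd_pow_of_dvd (Md_dvd N _ W) k).trans (pow_dvd_pow _ (by omega))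
  have hr : ∀ (R : Type) [CommRing R] [Finite R] (φ : ℤ[T;T⁻¹] →+* R), Nat.card R ≤ N →
      ∀ a b : ℤ[T;T⁻¹], Md (N * N.factorial) W ^ (k + 1 + n) ∣ a - b → φ a = φ b := by
    intro R _ _ φ hR a b ⟨c, hc⟩
    have h5 := congrArg φ hc
    rw [map_sub, map_mul, map_pow, ring_zero N _ W R hR φ (Dvd.intro_left _ rfl),
      zero_pow (by omega), zero_mul] at h5
    exact sub_eq_zero.1 h5
  have hins : ∀ i (p : ℕ) (x y : Word), IsKnot (x ++ y) → p + 4 ≤ (run x Front.empty).n →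
      IsKnot (x ++ sliced p (wU (N * N.factorial) v (2 * (i + (k + 1 + n)) + 2)) ++ y) ∧
        ∀ (A : Type) [AddCommGroup A] (z : Word → A), IsInvariant z → DegreeLE n z →
          z (x ++ sliced p (wU (N * N.factorial) v (2 * (i + (k + 1 + n)) + 2)) ++ y) =
            z (x ++ y) :=
    fun i p x y h hp => ins_wU h0 (by omega) h hp
  refine ⟨fun i => wU (N * N.factorial) v (2 * (i + (k + 1 + n)) + 2), h1, hins, ?_,
    fun i O v w => ⟨hd.trans (h2 i O v w), fun R _ _ φ hR => hr R φ hR _ _ (h2 i O v w)⟩, ?_,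
    fun i => ⟨(h3 i).1, (h3 i).2.1, hd.trans (h3 i).2.2, fun R _ _ φ hR => ?_⟩, h4⟩
  · intro i G _ H _ hH hHN hder f hf
    have h5 := dv_wU hdv (2 * (i + (k + 1 + n)) + 2) G H
      ((Nat.dvd_factorial (Nat.pos_of_ne_zero hH) hHN).trans (Dvd.intro_left _ rfl)) f hf
    rw [hder, Subgroup.map_bot, Subgroup.mem_bot] at h5
    exact h5
  · intro i
    have hk : IsKnot (([.birth 0 true, .birth 1 true, .birth 2 true, .birth 3 true] ++ sliced 0 b0) ++
        [.death 3, .death 2, .death 1, .death 0]) := isKnot_b0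
    have h5 := hins i 0 ([.birth 0 true, .birth 1 true, .birth 2 true, .birth 3 true] ++ sliced 0 b0)
      [.death 3, .death 2, .death 1, .death 0] hk (by decide)
    have e : ∀ w, slicedClosure (b0 ++ w) =
        ([.birth 0 true, .birth 1 true, .birth 2 true, .birth 3 true] ++ sliced 0 b0) ++
          sliced 0 w ++ [.death 3, .death 2, .death 1, .death 0] := by
      intro w
      unfold slicedClosure
      rw [sliced_append, List.append_assoc _ (sliced 0 b0) (sliced 0 w)]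
    rw [e]
    refine ⟨h5.1, fun A _ z hz1 hz2 => ?_⟩
    rw [h5.2 A z hz1 hz2]
    exact hz1 _ _ hk closure4_b0
  · rw [hr R φ hR _ _ (h3 i).2.2, map_one]

/-- the case of the empty list, with a smaller modulus and without the statements about boxes -/
theorem main4 (n N k : ℕ) (hN : 1 ≤ N) :
    ∃ u : ℕ → List (Letter 4),
    (∀ i, IsPure (u i)) ∧
    (∀ i (G : Type) [Group G] (H : Subgroup G) [H.Normal], H.index ≠ 0 → H.index ≤ N →
      derivedSeries H n = ⊥ → ∀ f : Letter 4 → G, (∀ j, f (false, j) = (f (true, j))⁻¹) →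
        ((u i).map f).prod = 1) ∧
    (∀ i (p : ℕ) (x y : Word), IsKnot (x ++ y) → p + 4 ≤ (run x Front.empty).n →
      IsKnot (x ++ sliced p (u i) ++ y) ∧ ∀ (A : Type) [AddCommGroup A] (z : Word → A),
        IsInvariant z → DegreeLE n z → z (x ++ sliced p (u i) ++ y) = z (x ++ y)) ∧
    (∀ i, IsKnot (slicedClosure (b0 ++ u i)) ∧ ∀ (A : Type) [AddCommGroup A] (z : Word → A),
      IsInvariant z → DegreeLE n z → z (slicedClosure (b0 ++ u i)) = z circle) ∧
    (∀ i, (dia (braidClosure 4) (b0 ++ u i)).IsClosed ∧ (∀ x y, (permW (b0 ++ u i)).SameCycle x y) ∧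
      (1 - T (-4) ^ N : ℤ[T;T⁻¹]) ^ k ∣ (dia (braidClosure 4) (b0 ++ u i)).fPoly - 1) ∧
    Function.Injective (fun i => (dia (braidClosure 4) (b0 ++ u i)).fPoly) := by
  obtain ⟨u, h1, h2, h3, -, h4, h5, h6⟩ := main3 n N k hN [] (by simp)
  refine ⟨u, h1, h3, h2, h4, fun i => ⟨(h5 i).1, (h5 i).2.1, ?_⟩, h6⟩
  have h7 := (h5 i).2.2.1
  unfold Md at h7
  rwa [List.map_nil, List.prod_nil, mul_one] at h7

end Pool.Agent.Helper52_KV
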