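import Mathlib

/-!
# A choice of a parameter
-/

set_option autoImplicit false

namespace Pool.Agent.Helper52_KV

open Polynomial

/-- the choice of the conjugate -/
theorem exists_c (α β γ ζ p q r u : ℤ) (hγ : γ ≠ 0) (hr : r ≠ 0) : ∃ c : ℕ,
    (γ * (p + c * r) + ζ * r) * (ζ * (u - c * r) + β * r) +
      (γ * (q + c * (u - p) - c ^ 2 * r) + ζ * (u - c * r)) * (-γ * (u - c * r) - α * r) ≠ 0 ∧
    3 ≤ |((α * (p + c * r) + β * r) * (ζ * (u - c * r) + β * r) +
        (α * (q + c * (u - p) - c ^ 2 * r) + β * (u - c * r)) * (-γ * (u - c * r) - α * r)) +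
      ((γ * (p + c * r) + ζ * r) * (-ζ * (q + c * (u - p) - c ^ 2 * r) - β * (p + c * r)) +
        (γ * (q + c * (u - p) - c ^ 2 * r) + ζ * (u - c * r)) *
          (γ * (q + c * (u - p) - c ^ 2 * r) + α * (p + c * r)))| := by
  let pp : ℤ[X] := C p + X * C r
  let qq : ℤ[X] := C q + X * C (u - p) - X ^ 2 * C r
  let uu : ℤ[X] := C u - X * C r
  let E : ℤ[X] := (C γ * pp + C ζ * C r) * (C ζ * uu + C β * C r) +
      (C γ * qq + C ζ * uu) * (-C γ * uu - C α * C r)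
  let F : ℤ[X] := ((C α * pp + C β * C r) * (C ζ * uu + C β * C r) +
        (C α * qq + C β * uu) * (-C γ * uu - C α * C r)) +
      ((C γ * pp + C ζ * C r) * (-C ζ * qq - C β * pp) +
        (C γ * qq + C ζ * uu) * (C γ * qq + C α * pp))
  have hE : ∀ c : ℤ, E.eval c = (γ * (p + c * r) + ζ * r) * (ζ * (u - c * r) + β * r) +
      (γ * (q + c * (u - p) - c ^ 2 * r) + ζ * (u - c * r)) * (-γ * (u - c * r) - α * r) := by
    intro c
    simp only [E, pp, qq, uu, eval_add, eval_mul, eval_sub, eval_neg, eval_pow, eval_C, eval_X]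
  have hF : ∀ c : ℤ, F.eval c = ((α * (p + c * r) + β * r) * (ζ * (u - c * r) + β * r) +
        (α * (q + c * (u - p) - c ^ 2 * r) + β * (u - c * r)) * (-γ * (u - c * r) - α * r)) +
      ((γ * (p + c * r) + ζ * r) * (-ζ * (q + c * (u - p) - c ^ 2 * r) - β * (p + c * r)) +
        (γ * (q + c * (u - p) - c ^ 2 * r) + ζ * (u - c * r)) *
          (γ * (q + c * (u - p) - c ^ 2 * r) + α * (p + c * r))) := by
    intro c
    simp only [F, pp, qq, uu, eval_add, eval_mul, eval_sub, eval_neg, eval_pow, eval_C, eval_X]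
  have hE0 : E ≠ 0 := by
    intro h0
    have h1 : E.eval 3 - 3 * E.eval 2 + 3 * E.eval 1 - E.eval 0 = -6 * γ ^ 2 * r ^ 2 := by
      rw [hE, hE, hE, hE]
      ring
    rw [h0] at h1
    simp only [eval_zero] at h1
    have h2 : γ ^ 2 * r ^ 2 = 0 := by linarith
    exact mul_ne_zero (pow_ne_zero 2 hγ) (pow_ne_zero 2 hr) h2
  have hF0 : ∀ j : ℤ, F - C j ≠ 0 := by
    intro j h0
    have h1 : F.eval 4 - 4 * F.eval 3 + 6 * F.eval 2 - 4 * F.eval 1 + F.eval 0 =
        24 * γ ^ 2 * r ^ 2 := by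
      rw [hF, hF, hF, hF, hF]
      ring
    rw [sub_eq_zero.1 h0] at h1
    simp only [eval_C] at h1
    have h2 : γ ^ 2 * r ^ 2 = 0 := by linarith
    exact mul_ne_zero (pow_ne_zero 2 hγ) (pow_ne_zero 2 hr) h2
  have hP : E * ∏ j ∈ Finset.Icc (-2 : ℤ) 2, (F - C j) ≠ 0 :=
    mul_ne_zero hE0 (Finset.prod_ne_zero_iff.2 fun j _ => hF0 j)
  obtain ⟨c, hc⟩ : ∃ c : ℕ, (E * ∏ j ∈ Finset.Icc (-2 : ℤ) 2, (F - C j)).eval (c : ℤ) ≠ 0 := by
    by_contra hcon
    push Not at hcon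
    refine hP (Polynomial.eq_zero_of_infinite_isRoot _ ?_)
    exact Set.infinite_of_injective_forall_mem (f := fun c : ℕ => (c : ℤ)) Nat.cast_injective hcon
  rw [eval_mul, eval_prod] at hc
  have h1 := left_ne_zero_of_mul hc
  have h2 := Finset.prod_ne_zero_iff.1 (right_ne_zero_of_mul hc)
  refine ⟨c, by rw [← hE]; exact h1, ?_⟩
  rw [← hF]
  by_contra h3
  have h4 : |F.eval (c : ℤ)| ≤ 2 := by omega
  have h5 := abs_le.1 h4
  refine h2 (F.eval (c : ℤ)) (Finset.mem_Icc.2 h5) ?_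
  rw [eval_sub, eval_C, sub_self]

end Pool.Agent.Helper52_KV
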