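import Mathlib

/-!
# Series with abelian or small factors
-/

set_option autoImplicit false

namespace Pool.Agent.Helper52_KV

/-- `G = S 0 ≥ S 1 ≥ ⋯ ≥ S n = 1` is a series of normal subgroups of the group `G` of length `n`
such that each factor `S j / S (j + 1)` is abelian or has at most `N` elements -/
structure Series (N n : ℕ) {G : Type} [Group G] (S : ℕ → Subgroup G) : Prop where
  top : S 0 = ⊤
  bot : S n = ⊥
  normal : ∀ j ≤ n, (S j).Normal
  le : ∀ j < n, S (j + 1) ≤ S j
  factor : ∀ j < n, ⁅S j, S j⁆ ≤ S (j + 1) ∨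
    ((S (j + 1)).relIndex (S j) ≠ 0 ∧ (S (j + 1)).relIndex (S j) ≤ N)

end Pool.Agent.Helper52_KV
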