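import Pool.Agent.Helper52_KV.Solv
import Pool.Agent.Helper52_KV.Series
import Pool.Agent.Helper52_KV.Poly

/-!
# Images in groups with a series with abelian or small factors
-/

set_option autoImplicit false

namespace Pool.Agent.Helper52_KV

open Finset LaurentPolynomial Pool.Agent.H891R2.Jones Pool.Agent.W639.RB
  Pool.Agent.Y463.SK Pool.Agent.Y463.MP Pool.Agent.Helper52_CV

/-! ### powers -/

/-- the words with a matrix of large trace -/
def Great (v : List (Letter 4)) : Prop := ∃ (κ : ℂ) (p q s u : ℤ), κ ≠ 0 ∧ s ≠ 0 ∧ 3 ≤ |p + u| ∧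
  p * u - q * s = 1 ∧ rd (zz v) = κ • GM p q s u

theorem Great.pow {v : List (Letter 4)} (h : Great v) {m : ℕ} (hm : 1 ≤ m) :
    Good (List.replicate m v).flatten := by
  obtain ⟨κ, p, q, s, u, hκ, hs, ht, hd, hv⟩ := h
  obtain ⟨n, rfl⟩ : ∃ n, m = n + 1 := ⟨m - 1, by omega⟩
  set M : Matrix (Fin 2) (Fin 2) ℤ := !![p, q; s, u] with hM
  have hG : GM p q s u = GI M := by
    unfold GI
    simp [hM]
  have hdet : M.det = 1 := by rw [Matrix.det_fin_two]; simpa [hM] using hd
  have htr : M.trace = p + u := by rw [Matrix.trace_fin_two]; simp [hM]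
  have h10 : M 1 0 = s := by simp [hM]
  have h1 : (M ^ (n + 1)) 1 0 = Sg M.trace (n + 1) * M 1 0 := by
    rw [sl_pow M hdet n, Matrix.sub_apply, Matrix.smul_apply, Matrix.smul_apply, smul_eq_mul,
      smul_eq_mul, Matrix.one_apply_ne (by decide), mul_zero, sub_zero]
  have h2 : Sg M.trace (n + 1) ≠ 0 := by
    have := Sg_lt M.trace (by rw [htr]; exact ht) n
    intro h0
    rw [h0, abs_zero] at this
    exact absurd this (not_lt.2 (abs_nonneg _))
  have h4 : (M ^ (n + 1)).det = 1 := by rw [Matrix.det_pow, hdet, one_pow]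
  rw [Matrix.det_fin_two] at h4
  refine ⟨κ ^ (n + 1), _, _, _, _, pow_ne_zero _ hκ, ?_, h4, ?_⟩
  · rw [h1, h10]
    exact mul_ne_zero h2 hs
  · rw [zz_flatten, map_pow, hv, smul_pow, hG, ← GI_pow]
    rfl

theorem Wk.pow {c : ℤ[T;T⁻¹]} {v : List (Letter 4)} (h : Wk c v) (m : ℕ) :
    Wk c (List.replicate m v).flatten := by
  have key : Wk c (List.replicate m v).flatten := by
    induction m with
    | zero =>
      refine ⟨⟨?_, ?_, 1, 1, 0, mul_one 1, ?_⟩, rfl⟩
      · exact zz_inv _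
      · exact zz_inv' _
      · rw [smul_zero, add_zero, one_smul]
        rfl
    | succ m ih =>
      rw [List.replicate_succ, List.flatten_cons]
      refine ⟨?_, ?_⟩
      · rw [invW_append, zz_append, zz_append]
        exact h.nr.mul ih.nr
      · rw [toN_append, permL_append, h.perm, ih.perm, mul_one]
  exact key

/-- the commutator of two good words, after a conjugation -/
theorem great_comm (t v : List (Letter 4)) (ht : Good t) (hv : Good v) :
    ∃ c : ℕ, Great (t ++ (wC c ++ v ++ invW (wC c)) ++ invW t ++ invW (wC c ++ v ++ invW (wC c))) := by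
  obtain ⟨κ, α, β, γ, ζ, hκ, hγ, hdt, ht⟩ := ht
  obtain ⟨μ, p, q, r, u, hμ, hr, hdv, hv⟩ := hv
  obtain ⟨c, hc, hc3⟩ := exists_c α β γ ζ p q r u hγ hr
  have hv' := rd_conj v c hμ hv
  have hdt' : (α : ℂ) * ζ - β * γ = 1 := by exact_mod_cast hdt
  have hdv' : (((p + c * r : ℤ) : ℂ)) * ((u - c * r : ℤ) : ℂ) -
      ((q + c * (u - p) - c ^ 2 * r : ℤ) : ℂ) * (r : ℤ) = 1 := by
    have : (p + c * r) * (u - c * r) - (q + c * (u - p) - c ^ 2 * r) * r = 1 := by
      linear_combination hdv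
    exact_mod_cast this
  have hti := rd_inv_of t hκ hdt' ht
  have hvi := rd_inv_of (wC c ++ v ++ invW (wC c)) hμ hdv' hv'
  set p' : ℤ := p + c * r with hp'
  set q' : ℤ := q + c * (u - p) - c ^ 2 * r with hq'
  set u' : ℤ := u - c * r with hu'
  refine ⟨c, 1, (α * p' + β * r) * (ζ * u' + β * r) + (α * q' + β * u') * (-γ * u' - α * r),
    (α * p' + β * r) * (-ζ * q' - β * p') + (α * q' + β * u') * (γ * q' + α * p'),
    (γ * p' + ζ * r) * (ζ * u' + β * r) + (γ * q' + ζ * u') * (-γ * u' - α * r),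
    (γ * p' + ζ * r) * (-ζ * q' - β * p') + (γ * q' + ζ * u') * (γ * q' + α * p'),
    one_ne_zero, hc, hc3, ?_, ?_⟩
  · have e : p' * u' - q' * r = 1 := by rw [hp', hq', hu']; linear_combination hdv
    calc _ = (α * ζ - β * γ) ^ 2 * (p' * u' - q' * r) ^ 2 := by ring
      _ = 1 := by rw [hdt, e]; norm_num
  · rw [zz_append, zz_append, zz_append, map_mul, map_mul, map_mul, ht, hv', hti, hvi]
    simp only [smul_mul_assoc, mul_smul_comm, GM_mul, smul_smul]
    congr 1
    · field_simp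
    · congr 1 <;> (push_cast; ring)

/-! ### series -/

/-- the image of `v` lies in the `j`-th term of every series with abelian or small factors -/
def Tv (N j : ℕ) (v : List (Letter 4)) : Prop :=
  ∀ (G : Type) [Group G] (n : ℕ) (S : ℕ → Subgroup G), Series N n S → j ≤ n →
    ∀ f : Letter 4 → G, (∀ j, f (false, j) = (f (true, j))⁻¹) → (v.map f).prod ∈ S j

theorem tv_zero (N : ℕ) (v : List (Letter 4)) : Tv N 0 v := by
  intro G _ n S hS _ f _
  rw [hS.top]
  exact Subgroup.mem_top _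

theorem Tv.conj {N j : ℕ} {v : List (Letter 4)} (h : Tv N j v) (w : List (Letter 4)) :
    Tv N j (w ++ v ++ invW w) := by
  intro G _ n S hS hj f hf
  rw [prod_app, prod_app, prod_invW f hf]
  exact (hS.normal j hj).conj_mem _ (h G n S hS hj f hf) _

theorem Tv.comm_right {N j : ℕ} {v : List (Letter 4)} (h : Tv N j v) (u : List (Letter 4)) :
    Tv N j (u ++ v ++ invW u ++ invW v) := by
  intro G _ n S hS hj f hf
  have h1 := h.conj u G n S hS hj f hf
  have h2 := h G n S hS hj f hf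
  rw [prod_app, prod_invW f hf]
  exact mul_mem h1 (inv_mem h2)

theorem Tv.step {N j m : ℕ} (hm : N.factorial ∣ m) {v : List (Letter 4)} (h : Tv N j v)
    (w : List (Letter 4)) : Tv N (j + 1) ((List.replicate m v).flatten ++
      (w ++ (List.replicate m v).flatten ++ invW w) ++ invW (List.replicate m v).flatten ++
      invW (w ++ (List.replicate m v).flatten ++ invW w)) := by
  intro G _ n S hS hj f hf
  have h1 := h G n S hS (by omega) f hf
  have hn1 : (S j).Normal := hS.normal j (by omega)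
  have hn2 : (S (j + 1)).Normal := hS.normal (j + 1) hj
  rw [prod_app, prod_app, prod_app, prod_invW f hf, prod_invW f hf, prod_app, prod_app,
    prod_invW f hf, prod_flatten]
  set g := (v.map f).prod
  set x := (w.map f).prod
  rcases hS.factor j (by omega) with h2 | ⟨h2, h3⟩
  · have h4 : g ^ m ∈ S j := pow_mem h1 m
    exact h2 (Subgroup.commutator_mem_commutator h4 (hn1.conj_mem _ h4 x))
  · have h4 : g ^ m ∈ S (j + 1) := by
      have h5 := Subgroup.pow_mem_of_relIndex_ne_zero_of_dvd h2 h1 (n := m) (fun k hk hk' =>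
        (Nat.dvd_factorial hk (hk'.trans h3)).trans hm)
      exact h5.1
    have h5 := hn2.conj_mem _ h4 x
    exact mul_mem (mul_mem (mul_mem h4 h5) (inv_mem h4)) (inv_mem h5)

theorem exist_tv {N : ℕ} {c : ℤ[T;T⁻¹]} {v : List (Letter 4)} (h1 : Wk c v) (h2 : Good v)
    (d : ℕ) : ∃ c' v', Wk (c * c') v' ∧ Great v' ∧ Tv N d v' := by
  induction d with
  | zero =>
    obtain ⟨e, h3⟩ := great_comm v v h2 h2
    exact ⟨c, _, (Wk.comm h1 (h1.conj (wC e))).wk, h3, tv_zero N _⟩
  | succ d ih =>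
    obtain ⟨c', v', h3, h4, h5⟩ := ih
    have h6 := h4.pow (Nat.factorial_pos N)
    have h7 := Wk.pow h3 N.factorial
    obtain ⟨e, h8⟩ := great_comm _ _ h6 h6
    refine ⟨c' * (c * c'), _, ?_, h8, h5.step dvd_rfl (wC e)⟩
    have h9 := (Wk.comm h7 (h7.conj (wC e))).wk
    rw [← mul_assoc]
    exact h9

theorem tv_best {N t : ℕ} {d : ℤ[T;T⁻¹]} {v : List (Letter 4)} (h1 : Wk d v) (h2 : Great v)
    (h3 : Tv N t v) : ∃ v, Wk d v ∧ Best v ∧ Tv N t v := by
  obtain ⟨κ, p, q, r, u, hκ, hr, -, hdet, hg⟩ := h2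
  have key : ∀ e : ℕ, p + e * r + r - 1 ≠ 0 → ∃ v, Wk d v ∧ Best v ∧ Tv N t v := by
    intro e he
    refine ⟨wC e ++ v ++ invW (wC e), h1.conj (wC e), ⟨κ, p + e * r,
      q + e * (u - p) - e ^ 2 * r, r, u - e * r, hκ, he, ?_, rd_conj v e hκ hg⟩, h3.conj _⟩
    linear_combination hdet
  by_cases h0 : p + (0 : ℕ) * r + r - 1 ≠ 0
  · exact key 0 h0
  · refine key 1 ?_
    push Not at h0
    intro h4
    apply hr
    push_cast at h0 h4
    linear_combination h4 - h0

theorem tv_wU {N s d : ℕ} {v : List (Letter 4)} (h : Tv N d v) (k : ℕ) : Tv N d (wU s v k) := by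
  induction k with
  | zero => exact h
  | succ k ih => exact ih.comm_right (wX s)

end Pool.Agent.Helper52_KV
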