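import Pool.Agent.Helper52_KV.Main
import Pool.Agent.Helper52_KV.Tow

/-!
# The family, with images in groups with a series with abelian or small factors
-/

set_option autoImplicit false

namespace Pool.Agent.Helper52_KV

open Finset LaurentPolynomial Pool.Agent.H891R2.Jones Pool.Agent.W639.RB
  Pool.Agent.Y463.SK Pool.Agent.Y463.MP Pool.Agent.Helper52_CV Pool.Agent.H835R2.Knot

/-! ### the Jones polynomial -/

theorem mainw (N k N' d : ℕ) (hN : 1 ≤ N) :
    ∃ v : List (Letter 4), permL (toN v) = 1 ∧ Tv N' d v ∧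
    (∀ i, IsPure (wU N v (2 * (i + k) + 2))) ∧
    (∀ i, (dia (braidClosure 4) (b0 ++ wU N v (2 * (i + k) + 2))).IsClosed ∧
      (∀ x y, (permW (b0 ++ wU N v (2 * (i + k) + 2))).SameCycle x y) ∧
      (1 - T (-4) ^ N : ℤ[T;T⁻¹]) ^ k ∣
        (dia (braidClosure 4) (b0 ++ wU N v (2 * (i + k) + 2))).fPoly - 1) ∧
    Function.Injective
      (fun i => (dia (braidClosure 4) (b0 ++ wU N v (2 * (i + k) + 2))).fPoly) := by
  obtain ⟨v0, hv1, hv2⟩ := exist_pow [(yy N, wZ N)]
    (fun x hx => by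
      rw [List.mem_singleton] at hx
      subst hx
      exact ⟨wk_two false 2, good_Z N hN⟩) (yy N) (wZ N) (wk_two false 2) (good_Z N hN) k
  rw [List.map_cons, List.map_nil, List.prod_singleton] at hv1
  obtain ⟨c', v1, hw1, hw2, hw3⟩ := exist_tv (N := N') hv1 hv2 d
  obtain ⟨v, hd, hv, hdv⟩ := tv_best hw1 hw2 hw3
  have hdvd : ∀ j : ℕ, k ≤ j → (1 - T (-4) ^ N : ℤ[T;T⁻¹]) ^ k ∣
      xx N ^ j * (yy N ^ k * yy N * c') := by
    intro j hj
    obtain ⟨j', rfl⟩ := Nat.exists_eq_add_of_le hj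
    have e : xx N ^ (k + j') * (yy N ^ k * yy N * c') =
        (yy N * xx N) ^ k * (xx N ^ j' * yy N * c') := by
      rw [mul_pow, pow_add]
      ring
    rw [e]
    exact Dvd.dvd.mul_right (pow_dvd_pow_of_dvd
      ((dvd_one_sub N N ⟨6, by ring⟩).trans (dvd_yx N)) k) _
  have hst : ∀ i : ℕ, St (xx N ^ (2 * (i + k) + 2) * (yy N ^ k * yy N * c'))
      (wU N v (2 * (i + k) + 2)) := fun i => st_wU (s := N) hd (2 * (i + k) + 1)
  refine ⟨v, hd.perm, hdv, fun i => permW_one _ (hst i).perm,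
    fun i => ⟨closed_all _, knot_b0 _ (hst i).perm, ?_⟩, fam_inj hN hd hv k⟩
  obtain ⟨G, hG⟩ := fPoly_move (by norm_num) (hst i) (braidClosure 4) b0 []
  rw [List.append_nil, List.append_nil, fPoly_b0] at hG
  rw [hG, add_sub_cancel_left]
  exact Dvd.dvd.mul_right (hdvd _ (by omega)) _

/-! ### the main theorem -/

theorem main5 (n N k : ℕ) (hN : 1 ≤ N) :
    ∃ u : ℕ → List (Letter 4),
    (∀ i, IsPure (u i)) ∧
    (∀ i (G : Type) [Group G] (S : ℕ → Subgroup G), Series N n S →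
      ∀ f : Letter 4 → G, (∀ j, f (false, j) = (f (true, j))⁻¹) → ((u i).map f).prod = 1) ∧
    (∀ i (p : ℕ) (x y : Word), IsKnot (x ++ y) → p + 4 ≤ (run x Front.empty).n →
      IsKnot (x ++ sliced p (u i) ++ y) ∧ ∀ (A : Type) [AddCommGroup A] (z : Word → A),
        IsInvariant z → DegreeLE n z → z (x ++ sliced p (u i) ++ y) = z (x ++ y)) ∧
    (∀ i, IsKnot (slicedClosure (b0 ++ u i)) ∧ ∀ (A : Type) [AddCommGroup A] (z : Word → A),
      IsInvariant z → DegreeLE n z → z (slicedClosure (b0 ++ u i)) = z circle) ∧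
    (∀ i, (dia (braidClosure 4) (b0 ++ u i)).IsClosed ∧ (∀ x y, (permW (b0 ++ u i)).SameCycle x y) ∧
      (1 - T (-4) ^ N : ℤ[T;T⁻¹]) ^ k ∣ (dia (braidClosure 4) (b0 ++ u i)).fPoly - 1) ∧
    Function.Injective (fun i => (dia (braidClosure 4) (b0 ++ u i)).fPoly) := by
  obtain ⟨v, h0, hdv, h1, h3, h4⟩ := mainw N (k + n) N n hN
  have hins : ∀ i (p : ℕ) (x y : Word), IsKnot (x ++ y) → p + 4 ≤ (run x Front.empty).n →
      IsKnot (x ++ sliced p (wU N v (2 * (i + (k + n)) + 2)) ++ y) ∧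
        ∀ (A : Type) [AddCommGroup A] (z : Word → A), IsInvariant z → DegreeLE n z →
          z (x ++ sliced p (wU N v (2 * (i + (k + n)) + 2)) ++ y) = z (x ++ y) :=
    fun i p x y h hp => ins_wU h0 (by omega) h hp
  refine ⟨fun i => wU N v (2 * (i + (k + n)) + 2), h1, ?_, hins, ?_,
    fun i => ⟨(h3 i).1, (h3 i).2.1, (pow_dvd_pow _ (Nat.le_add_right k n)).trans (h3 i).2.2⟩, h4⟩
  · intro i G _ S hS f hf
    have h5 := tv_wU (s := N) hdv (2 * (i + (k + n)) + 2) G n S hS le_rfl f hf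
    rw [hS.bot, Subgroup.mem_bot] at h5
    exact h5
  · intro i
    have hk : IsKnot (([.birth 0 true, .birth 1 true, .birth 2 true, .birth 3 true] ++ sliced 0 b0) ++
        [.death 3, .death 2, .death 1, .death 0]) := isKnot_b0
    have h5 := hins i 0 ([.birth 0 true, .birth 1 true, .birth 2 true, .birth 3 true] ++ sliced 0 b0)
      [.death 3, .death 2, .death 1, .death 0] hk (by decide)
    have e : ∀ w, slicedClosure (b0 ++ w) =
        ([.birth 0 true, .birth 1 true, .birth 2 true, .birth 3 true] ++ sliced 0 b0) ++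
          sliced 0 w ++ [.death 3, .death 2, .death 1, .death 0] := by
      intro w
      unfold slicedClosure
      rw [sliced_append, List.append_assoc _ (sliced 0 b0) (sliced 0 w)]
    rw [e]
    refine ⟨h5.1, fun A _ z hz1 hz2 => ?_⟩
    rw [h5.2 A z hz1 hz2]
    exact hz1 _ _ hk closure4_b0

end Pool.Agent.Helper52_KV
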